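import Mathlib

set_option autoImplicit false

/-!
# The limit of `φ_d(n) / n^(d-1)` exists for every `d ≥ 2`

`φ_d(n)` is the least size of a family of `d`-subsets of an `n`-set that blocks every partition of
the `n`-set into `d` nonempty parts.

Proof.  Let `E` be an optimal blocking family on `Fin n`, let `q` be coprime to `n!`, and let
`V = Fin n × ZMod q`, `k = d - 1`.  The graphs of the `q^k` polynomials of degree less than `k`
are blocks of size `n` in `V` such that every `k`-set of points with distinct first coordinates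
lies in a block.  Take a copy of `E` in every block, all sets `{p} ∪ S` with `S` in a copy of a
`k`-blocking family of a block (`p` a fixed point), and all `{p} ∪ T` where `T` has two points
with the same first coordinate.  This family is blocking, so
`φ_d(nq) / (nq)^k ≤ φ_d(n) / n^k + 2 / n`.
-/

namespace Pool.Agent.Results.MP_d4e795_co.LimitExists

open Finset Filter Topology

/-- `X` is a partition of `Fin n` into `d` nonempty parts. -/
def IsPartition {d n : ℕ} (X : Fin d → Finset (Fin n)) : Prop :=
  (∀ i, (X i).Nonempty) ∧ (∀ i j, i ≠ j → Disjoint (X i) (X j)) ∧ (∀ v, ∃ i, v ∈ X i)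

/-- Some member `{x_1, …, x_d}` of `E` has `x_i ∈ X_i` for every `i`. -/
def Blocks {d n : ℕ} (E : Finset (Finset (Fin n))) (X : Fin d → Finset (Fin n)) : Prop :=
  ∃ e ∈ E, ∃ x : Fin d → Fin n, (∀ i, x i ∈ X i) ∧ e = univ.image x

/-- `E` is a `d`-blocking set for `Fin n`. -/
def IsBlocking (d n : ℕ) (E : Finset (Finset (Fin n))) : Prop :=
  (∀ e ∈ E, e.card = d) ∧ ∀ X : Fin d → Finset (Fin n), IsPartition X → Blocks E X

/-- The least size of a `d`-blocking set for an `n`-element set. -/
noncomputable def phi (d n : ℕ) : ℕ :=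
  sInf {m : ℕ | ∃ E : Finset (Finset (Fin n)), IsBlocking d n E ∧ E.card = m}

/-! ### Colourings -/

section colourings

variable {V W : Type} [DecidableEq W]

/-- Every surjective colouring with `d` colours has a member of `E` with all colours. -/
def Hits (d : ℕ) (E : Finset (Finset V)) : Prop :=
  ∀ c : V → Fin d, Function.Surjective c → ∃ e ∈ E, e.image c = univ

theorem isBlocking_iff {d n : ℕ} {E : Finset (Finset (Fin n))} :
    IsBlocking d n E ↔ (∀ e ∈ E, e.card = d) ∧ Hits d E := by
  constructor
  · rintro ⟨h1, h2⟩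
    refine ⟨h1, fun c hc => ?_⟩
    have hX : IsPartition (fun i => univ.filter (fun v => c v = i)) := by
      refine ⟨?_, ?_, ?_⟩
      · intro i
        obtain ⟨v, hv⟩ := hc i
        exact ⟨v, by simp [hv]⟩
      · intro i j hij
        rw [disjoint_left]
        intro v hv hw
        simp only [mem_filter, mem_univ, true_and] at hv hw
        exact hij (hv.symm.trans hw)
      · intro v
        exact ⟨c v, by simp⟩
    obtain ⟨e, he, x, hx, rfl⟩ := h2 _ hX
    refine ⟨_, he, ?_⟩
    rw [eq_univ_iff_forall]
    intro i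
    rw [image_image, mem_image]
    exact ⟨i, mem_univ _, by simpa using hx i⟩
  · rintro ⟨h1, h2⟩
    refine ⟨h1, fun X hX => ?_⟩
    choose c hc using hX.2.2
    have huniq : ∀ v i, v ∈ X i → c v = i := by
      intro v i hv
      by_contra hne
      exact (disjoint_left.1 (hX.2.1 _ _ hne)) (hc v) hv
    obtain ⟨e, he, hce⟩ := h2 c (fun i => by
      obtain ⟨v, hv⟩ := hX.1 i
      exact ⟨v, huniq v i hv⟩)
    have h3 : ∀ i, ∃ v ∈ e, c v = i := by
      intro i
      have : i ∈ e.image c := by rw [hce]; exact mem_univ _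
      simpa using this
    choose x hx hcx using h3
    refine ⟨e, he, x, fun i => by
      have := hc (x i)
      rwa [hcx i] at this, ?_⟩
    symm
    apply eq_of_subset_of_card_le
    · intro v hv
      simp only [mem_image, mem_univ, true_and] at hv
      obtain ⟨i, rfl⟩ := hv
      exact hx i
    · rw [h1 e he, card_image_of_injective, card_univ, Fintype.card_fin]
      intro i j hij
      rw [← hcx i, hij, hcx j]

/-- Images under surjections. -/
theorem push {d : ℕ} {E : Finset (Finset V)} (h1 : ∀ e ∈ E, e.card = d) (h2 : Hits d E)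
    (f : V → W) (hf : Function.Surjective f) :
    ∃ E' : Finset (Finset W), (∀ e ∈ E', e.card = d) ∧ Hits d E' ∧ E'.card ≤ E.card := by
  refine ⟨(E.image (fun e => e.image f)).filter (fun e => e.card = d), ?_, ?_, ?_⟩
  · intro e he
    exact (mem_filter.1 he).2
  · intro c hc
    obtain ⟨e, he, hce⟩ := h2 (c ∘ f) (hc.comp hf)
    rw [← image_image] at hce
    refine ⟨e.image f, mem_filter.2 ⟨mem_image_of_mem _ he, ?_⟩, hce⟩
    apply le_antisymm
    · exact card_image_le.trans (h1 e he).le
    · have := card_image_le (s := e.image f) (f := c)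
      rwa [hce, card_univ, Fintype.card_fin] at this
  · exact (card_filter_le _ _).trans card_image_le

end colourings

theorem phi_set_nonempty (d n : ℕ) :
    {m : ℕ | ∃ E : Finset (Finset (Fin n)), IsBlocking d n E ∧ E.card = m}.Nonempty := by
  refine ⟨_, powersetCard d univ, ?_, rfl⟩
  rw [isBlocking_iff]
  refine ⟨fun e he => (mem_powersetCard.1 he).2, fun c hc => ?_⟩
  obtain ⟨g, hg⟩ := hc.hasRightInverse
  refine ⟨univ.image g, ?_, ?_⟩
  · rw [mem_powersetCard]
    refine ⟨subset_univ _, ?_⟩
    rw [card_image_of_injective _ hg.injective, card_univ, Fintype.card_fin]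
  · rw [eq_univ_iff_forall]
    intro i
    rw [image_image, mem_image]
    exact ⟨i, mem_univ _, hg i⟩

theorem exists_phi (d n : ℕ) : ∃ E : Finset (Finset (Fin n)),
    (∀ e ∈ E, e.card = d) ∧ Hits d E ∧ E.card = phi d n := by
  obtain ⟨E, hE, hc⟩ := Nat.sInf_mem (phi_set_nonempty d n)
  rw [isBlocking_iff] at hE
  exact ⟨E, hE.1, hE.2, hc⟩

theorem phi_le {V : Type} [Fintype V] [DecidableEq V] {d n : ℕ} (hn : n ≤ Fintype.card V)
    (hn1 : 1 ≤ n)
    {E : Finset (Finset V)} (h1 : ∀ e ∈ E, e.card = d) (h2 : Hits d E) : phi d n ≤ E.card := by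
  obtain ⟨f, hf⟩ : ∃ f : V → Fin n, Function.Surjective f := by
    let g : Fin n → V := fun i => (Fintype.equivFin V).symm (Fin.castLE hn i)
    have hg : Function.Injective g := by
      intro i j hij
      have := (Fintype.equivFin V).symm.injective hij
      exact Fin.castLE_injective hn this
    have : Nonempty (Fin n) := ⟨⟨0, hn1⟩⟩
    exact ⟨Function.invFun g, Function.invFun_surjective hg⟩
  obtain ⟨E', h3, h4, h5⟩ := push h1 h2 f hf
  have h6 : E'.card ∈ {m : ℕ | ∃ E : Finset (Finset (Fin n)), IsBlocking d n E ∧ E.card = m} :=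
    ⟨E', isBlocking_iff.2 ⟨h3, h4⟩, rfl⟩
  exact (Nat.sInf_le h6).trans h5

theorem phi_mono (d : ℕ) {n m : ℕ} (hn : 1 ≤ n) (h : n ≤ m) : phi d n ≤ phi d m := by
  obtain ⟨E, h1, h2, h3⟩ := exists_phi d m
  rw [← h3]
  exact phi_le (by simpa using h) hn h1 h2

/-- The star: `φ_{k+1}(n) ≤ n^k`. -/
theorem phi_star (k n : ℕ) (hn : 1 ≤ n) : phi (k + 1) n ≤ n ^ k := by
  classical
  let p : Fin n := ⟨0, hn⟩
  have hcard : ((univ : Finset (Fin k → Fin n)).image (fun x => insert p (univ.image x))).card
      ≤ n ^ k := by
    refine card_image_le.trans ?_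
    rw [card_univ, Fintype.card_fun, Fintype.card_fin, Fintype.card_fin]
  have h := phi_le (V := Fin n) (d := k + 1) (n := n) (by simp) hn
    (E := ((univ : Finset (Fin k → Fin n)).image (fun x => insert p (univ.image x))).filter
      (fun e => e.card = k + 1)) (fun e he => (mem_filter.1 he).2) ?_
  · exact h.trans ((card_filter_le _ _).trans hcard)
  · intro c hc
    obtain ⟨g, hg⟩ := hc.hasRightInverse
    have himg : (insert p (univ.image (fun i : Fin k => g ((c p).succAbove i)))).image c = univ := by
      rw [eq_univ_iff_forall]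
      intro i
      rw [image_insert, mem_insert]
      rcases Fin.eq_self_or_eq_succAbove (c p) i with h | ⟨j, h⟩
      · exact Or.inl h
      · right
        rw [image_image, mem_image]
        exact ⟨j, mem_univ _, by simp [hg _, h]⟩
    refine ⟨insert p (univ.image (fun i : Fin k => g ((c p).succAbove i))),
      mem_filter.2 ⟨mem_image.2 ⟨_, mem_univ _, rfl⟩, ?_⟩, himg⟩
    apply le_antisymm
    · refine (card_insert_le _ _).trans ?_
      have := card_image_le (s := (univ : Finset (Fin k))) (f := fun i : Fin k => g ((c p).succAbove i))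
      rw [card_univ, Fintype.card_fin] at this
      omega
    · have := card_image_le (s := insert p (univ.image (fun i : Fin k => g ((c p).succAbove i))))
        (f := c)
      rwa [himg, card_univ, Fintype.card_fin] at this

/-! ### The polynomial blocks -/

section blocks

variable (n k q : ℕ)

/-- The graph of the polynomial with coefficient vector `a`. -/
def blk (a : Fin k → ZMod q) (i : Fin n) : Fin n × ZMod q :=
  (i, ∑ j : Fin k, a j * ((i : ℕ) : ZMod q) ^ (j : ℕ))

variable {n k q}

theorem blk_injective (a : Fin k → ZMod q) : Function.Injective (blk n k q a) := by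
  intro i j h
  exact (Prod.ext_iff.1 h).1

/-- Differences of distinct numbers below `n` are units modulo `q`. -/
theorem isUnit_sub (hq : Nat.Coprime q n.factorial) {i j : Fin n} (hij : i ≠ j) :
    IsUnit (((j : ℕ) : ZMod q) - ((i : ℕ) : ZMod q)) := by
  have key : ∀ a b : ℕ, a < b → b < n → IsUnit (((b : ℕ) : ZMod q) - ((a : ℕ) : ZMod q)) := by
    intro a b hab hb
    rw [← Nat.cast_sub hab.le]
    rw [ZMod.isUnit_iff_coprime]
    apply Nat.Coprime.coprime_dvd_left (n := q) (m := b - a) (k := n.factorial) ?_ hq.symm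
    exact Nat.dvd_factorial (by omega) (by omega)
  rcases lt_or_gt_of_ne (fun h : (i : ℕ) = (j : ℕ) => hij (Fin.ext h)) with h | h
  · exact key _ _ h j.2
  · have := (key _ _ h i.2).neg
    simpa using this

/-- Interpolation. -/
theorem exists_blk (hq : Nat.Coprime q n.factorial) (x : Fin k → Fin n × ZMod q)
    (hx : Function.Injective (fun i => (x i).1)) :
    ∃ a : Fin k → ZMod q, ∀ i, blk n k q a (x i).1 = x i := by
  let v : Fin k → ZMod q := fun i => (((x i).1 : ℕ) : ZMod q)
  have hdet : IsUnit (Matrix.vandermonde v).det := by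
    rw [Matrix.det_vandermonde]
    rw [IsUnit.prod_univ_iff]
    intro i
    rw [IsUnit.prod_iff]
    intro j hj
    have hne : (x i).1 ≠ (x j).1 := fun h => (ne_of_gt (mem_Ioi.1 hj)).symm (hx h)
    exact isUnit_sub hq hne
  have hu : IsUnit (Matrix.vandermonde v) := (Matrix.isUnit_iff_isUnit_det _).2 hdet
  obtain ⟨a, ha⟩ := (Matrix.mulVec_surjective_iff_isUnit.2 hu) (fun i => (x i).2)
  refine ⟨a, fun i => ?_⟩
  apply Prod.ext
  · rfl
  · have h1 := congrFun ha i
    simp only [Matrix.mulVec, dotProduct, Matrix.vandermonde_apply] at h1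
    simp only [blk]
    rw [← h1]
    apply sum_congr rfl
    intro j _
    rw [mul_comm]

/-- The main inequality. -/
theorem phi_mul_le (hq : Nat.Coprime q n.factorial) (hq1 : 1 ≤ q) (hn : 1 ≤ n) :
    phi (k + 2) (n * q) ≤ q ^ (k + 1) * (phi (k + 2) n + phi (k + 1) n) +
      n * q ^ 2 * (n * q) ^ (k - 1) := by
  classical
  have : NeZero q := ⟨by omega⟩
  obtain ⟨E, hE1, hE2, hE3⟩ := exists_phi (k + 2) n
  obtain ⟨S, hS1, hS2, hS3⟩ := exists_phi (k + 1) n
  let p : Fin n × ZMod q := (⟨0, hn⟩, 0)
  let F1 : Finset (Finset (Fin n × ZMod q)) :=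
    ((univ : Finset (Fin (k + 1) → ZMod q)) ×ˢ E).image
      (fun t => t.2.image (blk n (k + 1) q t.1))
  let F2 : Finset (Finset (Fin n × ZMod q)) :=
    ((univ : Finset (Fin (k + 1) → ZMod q)) ×ˢ S).image
      (fun t => insert p (t.2.image (blk n (k + 1) q t.1)))
  let F3 : Finset (Finset (Fin n × ZMod q)) :=
    (univ : Finset ((Fin n × ZMod q × ZMod q) × (Fin (k - 1) → Fin n × ZMod q))).image
      (fun t => insert p (insert (t.1.1, t.1.2.1) (insert (t.1.1, t.1.2.2) (univ.image t.2))))
  have hc1 : F1.card ≤ q ^ (k + 1) * phi (k + 2) n := by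
    refine card_image_le.trans ?_
    rw [card_product, card_univ, Fintype.card_fun, Fintype.card_fin, ZMod.card, hE3]
  have hc2 : F2.card ≤ q ^ (k + 1) * phi (k + 1) n := by
    refine card_image_le.trans ?_
    rw [card_product, card_univ, Fintype.card_fun, Fintype.card_fin, ZMod.card, hS3]
  have hc3 : F3.card ≤ n * q ^ 2 * (n * q) ^ (k - 1) := by
    refine card_image_le.trans ?_
    rw [card_univ]
    simp only [Fintype.card_prod, Fintype.card_fin, ZMod.card, Fintype.card_fun]
    apply le_of_eq
    ring
  have h := phi_le (V := Fin n × ZMod q) (d := k + 2) (n := n * q)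
    (by simp [ZMod.card]) (Nat.one_le_iff_ne_zero.2 (by positivity))
    (E := (F1 ∪ F2 ∪ F3).filter (fun e => e.card = k + 2)) (fun e he => (mem_filter.1 he).2) ?_
  · refine h.trans ((card_filter_le _ _).trans ((card_union_le _ _).trans ?_))
    have := card_union_le F1 F2
    rw [mul_add]
    omega
  · intro c hc
    obtain ⟨g, hg⟩ := hc.hasRightInverse
    -- reduction: it suffices to find a member with all colours and at most `k + 2` elements
    have red : ∀ e ∈ F1 ∪ F2 ∪ F3, e.image c = univ → e.card ≤ k + 2 →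
        ∃ e ∈ (F1 ∪ F2 ∪ F3).filter (fun e => e.card = k + 2), e.image c = univ := by
      intro e he hce hcard
      refine ⟨e, mem_filter.2 ⟨he, le_antisymm hcard ?_⟩, hce⟩
      have := card_image_le (s := e) (f := c)
      rwa [hce, card_univ, Fintype.card_fin] at this
    let x : Fin (k + 1) → Fin n × ZMod q := fun i => g ((c p).succAbove i)
    have hcx : ∀ i, c (x i) = (c p).succAbove i := fun i => hg _
    have hxinj : Function.Injective x := by
      intro i j hij
      have : c (x i) = c (x j) := by rw [hij]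
      rw [hcx, hcx] at this
      exact Fin.succAbove_right_injective this
    by_cases hx : Function.Injective (fun i => (x i).1)
    · obtain ⟨a, ha⟩ := exists_blk hq x hx
      by_cases h0 : ∃ i, c (blk n (k + 1) q a i) = c p
      · -- all colours occur on the block
        obtain ⟨e, he, hce⟩ := hE2 (c ∘ blk n (k + 1) q a) (by
          intro i
          rcases Fin.eq_self_or_eq_succAbove (c p) i with h | ⟨j, h⟩
          · obtain ⟨i0, hi0⟩ := h0
            exact ⟨i0, by simp [hi0, h]⟩
          · exact ⟨(x j).1, by simp [ha j, hcx j, h]⟩)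
        apply red (e.image (blk n (k + 1) q a))
        · exact mem_union_left _ (mem_union_left _ (mem_image.2 ⟨(a, e), by simp [he], rfl⟩))
        · rw [image_image]; exact hce
        · exact card_image_le.trans (hE1 e he).le
      · -- the colour of `p` does not occur on the block
        push Not at h0
        have h1 : ∀ i, ∃ j, (c p).succAbove j = c (blk n (k + 1) q a i) := by
          intro i
          exact Fin.exists_succAbove_eq (h0 i)
        choose c' hc' using h1
        obtain ⟨s, hs, hcs⟩ := hS2 c' (by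
          intro j
          refine ⟨(x j).1, ?_⟩
          have := hc' (x j).1
          rw [ha j, hcx j] at this
          exact Fin.succAbove_right_injective this)
        apply red (insert p (s.image (blk n (k + 1) q a)))
        · exact mem_union_left _ (mem_union_right _ (mem_image.2 ⟨(a, s), by simp [hs], rfl⟩))
        · rw [eq_univ_iff_forall]
          intro i
          rw [image_insert, mem_insert]
          rcases Fin.eq_self_or_eq_succAbove (c p) i with h | ⟨j, h⟩
          · exact Or.inl h
          · right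
            have hj : j ∈ s.image c' := by rw [hcs]; exact mem_univ _
            obtain ⟨i0, hi0, hj0⟩ := mem_image.1 hj
            rw [image_image, mem_image]
            refine ⟨i0, hi0, ?_⟩
            rw [Function.comp_apply, ← hc' i0, hj0, h]
        · refine (card_insert_le _ _).trans ?_
          have := card_image_le (s := s) (f := blk n (k + 1) q a)
          rw [hS1 s hs] at this
          omega
    · -- two points with the same first coordinate
      have hx' : ∃ i j, (x i).1 = (x j).1 ∧ i ≠ j := by
        by_contra hcon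
        push Not at hcon
        exact hx (fun i j hij => hcon i j hij)
      obtain ⟨i, j, hij, hne⟩ := hx'
      -- enumerate the remaining indices
      have hk : 1 ≤ k := by
        by_contra hk0
        have : k = 0 := by omega
        subst this
        apply hne
        apply Fin.ext
        omega
      have hcompl : Fintype.card {l : Fin (k + 1) // l ≠ i ∧ l ≠ j} = k - 1 := by
        rw [Fintype.card_subtype]
        have : (univ.filter (fun l : Fin (k + 1) => l ≠ i ∧ l ≠ j)) = (univ.erase i).erase j := by
          ext l; simp [and_comm]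
        rw [this, card_erase_of_mem (by simp [Ne.symm hne]), card_erase_of_mem (mem_univ _),
          card_univ, Fintype.card_fin]
        omega
      let eqv : Fin (k - 1) ≃ {l : Fin (k + 1) // l ≠ i ∧ l ≠ j} :=
        (Fintype.equivFinOfCardEq hcompl).symm
      apply red (insert p (univ.image x))
      · apply mem_union_right
        rw [mem_image]
        refine ⟨(((x i).1, (x i).2, (x j).2), fun l => x (eqv l).1), mem_univ _, ?_⟩
        congr 1
        ext v
        simp only [mem_insert, mem_image, mem_univ, true_and]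
        constructor
        · rintro (h | h | ⟨l, h⟩)
          · exact ⟨i, h.symm⟩
          · refine ⟨j, ?_⟩
            rw [h, hij]
          · exact ⟨_, h⟩
        · rintro ⟨l, rfl⟩
          by_cases h1 : l = i
          · left; rw [h1]
          · by_cases h2 : l = j
            · right; left; rw [h2, hij]
            · right; right
              exact ⟨eqv.symm ⟨l, h1, h2⟩, by simp⟩
      · rw [eq_univ_iff_forall]
        intro l
        rw [image_insert, mem_insert]
        rcases Fin.eq_self_or_eq_succAbove (c p) l with h | ⟨m, h⟩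
        · exact Or.inl h
        · right
          rw [image_image, mem_image]
          exact ⟨m, mem_univ _, by rw [Function.comp_apply, hcx, h]⟩
      · refine (card_insert_le _ _).trans ?_
        have := card_image_le (s := (univ : Finset (Fin (k + 1)))) (f := x)
        rw [card_univ, Fintype.card_fin] at this
        omega

end blocks

/-! ### The limit -/

/-- The normalised minimum. -/
noncomputable def ratio (k n : ℕ) : ℝ := (phi (k + 2) n : ℝ) / (n : ℝ) ^ (k + 1)

theorem ratio_nonneg (k n : ℕ) : 0 ≤ ratio k n := by unfold ratio; positivity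

theorem ratio_le_one (k n : ℕ) (hn : 1 ≤ n) : ratio k n ≤ 1 := by
  unfold ratio
  have h : (phi (k + 2) n : ℝ) ≤ (n : ℝ) ^ (k + 1) := by exact_mod_cast phi_star (k + 1) n hn
  exact div_le_one_of_le₀ h (by positivity)

theorem ratio_mul_le {n k q : ℕ} (hk : 1 ≤ k) (hq : Nat.Coprime q n.factorial) (hq1 : 1 ≤ q) (hn : 1 ≤ n) :
    ratio k (n * q) ≤ ratio k n + 2 / n := by
  have h1 := phi_mul_le (k := k) hq hq1 hn
  have h2 := phi_star k n hn
  have hn' : (0 : ℝ) < n := by exact_mod_cast hn
  have hq' : (0 : ℝ) < q := by exact_mod_cast hq1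
  have h3 : (phi (k + 2) (n * q) : ℝ) ≤ (q : ℝ) ^ (k + 1) * (phi (k + 2) n + (n : ℝ) ^ k) +
      (q : ℝ) ^ (k + 1) * (n : ℝ) ^ k := by
    have h4 : phi (k + 2) (n * q) ≤ q ^ (k + 1) * (phi (k + 2) n + n ^ k) + q ^ (k + 1) * n ^ k := by
      refine h1.trans (Nat.add_le_add (Nat.mul_le_mul_left _ (Nat.add_le_add_left h2 _)) ?_)
      obtain ⟨m, rfl⟩ : ∃ m, k = m + 1 := ⟨k - 1, by omega⟩
      apply le_of_eq
      rw [Nat.add_sub_cancel, mul_pow]
      ring
    exact_mod_cast h4
  unfold ratio
  rw [Nat.cast_mul, mul_pow, div_le_iff₀ (by positivity)]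
  refine h3.trans (le_of_eq ?_)
  field_simp
  ring

/-- The upper limit is at most `ratio k n + 2 / n` for every `n`. -/
theorem eventually_le {k n : ℕ} (hk : 1 ≤ k) (hn : 1 ≤ n) {b : ℝ} (hb : ratio k n + 2 / n < b) :
    ∀ᶠ N : ℕ in atTop, ratio k N ≤ b := by
  have hn' : (0 : ℝ) < n := by exact_mod_cast hn
  set a : ℝ := ratio k n + 2 / n with ha
  have ha0 : 0 < a := by
    have := ratio_nonneg k n
    positivity
  -- the factor tends to one
  have hlim : Tendsto (fun N : ℕ => (1 + ((n : ℝ) * n.factorial + n) * (N : ℝ)⁻¹) ^ (k + 1) * a)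
      atTop (𝓝 ((1 + ((n : ℝ) * n.factorial + n) * 0) ^ (k + 1) * a)) :=
    (((tendsto_inv_atTop_nhds_zero_nat (𝕜 := ℝ)).const_mul _).const_add _ |>.pow _).mul_const _
  rw [mul_zero, add_zero, one_pow, one_mul] at hlim
  filter_upwards [hlim.eventually (gt_mem_nhds hb), eventually_ge_atTop 1] with N hN hN1
  have hN' : (0 : ℝ) < N := by exact_mod_cast hN1
  -- choice of `q`
  let q : ℕ := n.factorial * (N / (n * n.factorial) + 1) + 1
  have hq : Nat.Coprime q n.factorial := by
    have : Nat.Coprime (n.factorial * (N / (n * n.factorial) + 1) + 1) n.factorial := by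
      rw [Nat.coprime_comm]
      exact (Nat.coprime_mul_left_add_right n.factorial 1 _).2 (Nat.coprime_one_right _)
    exact this
  have hfac := Nat.factorial_pos n
  have hpos : 0 < n * n.factorial := by positivity
  have h1 : N ≤ n * q := by
    have h2 := Nat.lt_div_mul_add (a := N) hpos
    have h3 : n * q = N / (n * n.factorial) * (n * n.factorial) + n * n.factorial + n := by
      simp only [q]; ring
    omega
  have h2 : n * q ≤ N + (n * n.factorial + n) := by
    have h2 := Nat.div_mul_le_self N (n * n.factorial)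
    have h3 : n * q = N / (n * n.factorial) * (n * n.factorial) + n * n.factorial + n := by
      simp only [q]; ring
    omega
  have h3 := phi_mono (k + 2) hN1 h1
  have h4 := ratio_mul_le (k := k) hk hq (by simp [q]) hn
  have h5 : (phi (k + 2) (n * q) : ℝ) ≤ ((n * q : ℕ) : ℝ) ^ (k + 1) * a := by
    unfold ratio at h4
    have hpos' : (0 : ℝ) < ((n * q : ℕ) : ℝ) ^ (k + 1) := by
      have : 0 < n * q := by omega
      positivity
    rw [div_le_iff₀ hpos'] at h4
    rw [mul_comm _ a]
    exact h4
  have h6 : ((n * q : ℕ) : ℝ) ≤ (N : ℝ) * (1 + ((n : ℝ) * n.factorial + n) * (N : ℝ)⁻¹) := by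
    have : ((n * q : ℕ) : ℝ) ≤ (N : ℝ) + ((n : ℝ) * n.factorial + n) := by exact_mod_cast h2
    refine this.trans (le_of_eq ?_)
    field_simp
  unfold ratio
  rw [div_le_iff₀ (by positivity)]
  calc (phi (k + 2) N : ℝ) ≤ phi (k + 2) (n * q) := by exact_mod_cast h3
    _ ≤ ((n * q : ℕ) : ℝ) ^ (k + 1) * a := h5
    _ ≤ ((N : ℝ) * (1 + ((n : ℝ) * n.factorial + n) * (N : ℝ)⁻¹)) ^ (k + 1) * a := by
        apply mul_le_mul_of_nonneg_right _ ha0.le
        exact pow_le_pow_left₀ (by positivity) h6 _
    _ = ((1 + ((n : ℝ) * n.factorial + n) * (N : ℝ)⁻¹) ^ (k + 1) * a) * (N : ℝ) ^ (k + 1) := by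
        rw [mul_pow]; ring
    _ ≤ b * (N : ℝ) ^ (k + 1) := by
        apply mul_le_mul_of_nonneg_right hN.le (by positivity)

theorem tendsto_ratio {k : ℕ} (hk : 1 ≤ k) : ∃ c : ℝ, Tendsto (ratio k) atTop (𝓝 c) := by
  -- `c` is the lower limit
  have hbdd : ∀ᶠ n : ℕ in atTop, ratio k n ≤ 1 :=
    (eventually_ge_atTop 1).mono fun n hn => ratio_le_one k n hn
  have hB : IsBoundedUnder (· ≤ ·) atTop (ratio k) := ⟨1, by simpa using hbdd⟩
  have hB' : IsBoundedUnder (· ≥ ·) atTop (ratio k) :=
    isBoundedUnder_of ⟨0, fun n => ratio_nonneg k n⟩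
  refine ⟨liminf (ratio k) atTop, ?_⟩
  refine tendsto_of_le_liminf_of_limsup_le le_rfl ?_ hB hB'
  apply le_of_forall_pos_le_add
  intro ε hε
  have h1 : ∃ᶠ n in atTop, ratio k n < liminf (ratio k) atTop + ε / 3 :=
    frequently_lt_of_liminf_lt hB.isCoboundedUnder_ge (by linarith)
  have h2 : ∀ᶠ n : ℕ in atTop, (2 : ℝ) / n < ε / 3 := by
    have : Tendsto (fun n : ℕ => (2 : ℝ) / n) atTop (𝓝 0) := tendsto_const_div_atTop_nhds_zero_nat 2
    exact this.eventually (gt_mem_nhds (by positivity))
  obtain ⟨n, hn1, hn2, hn3⟩ := (h1.and_eventually (h2.and (eventually_ge_atTop 1))).exists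
  have h3 := eventually_le hk hn3 (b := liminf (ratio k) atTop + ε) (by linarith)
  exact limsup_le_of_le hB'.isCoboundedUnder_le h3

/-- **Main theorem.** For every `d ≥ 3` the limit of `φ_d(n) / n^(d-1)` exists. -/
theorem result : ∀ d : ℕ, 3 ≤ d → ∃ c : ℝ,
    Tendsto (fun n : ℕ => (phi d n : ℝ) / (n : ℝ) ^ (d - 1)) atTop (𝓝 c) := by
  intro d hd
  obtain ⟨k, rfl⟩ : ∃ k, d = k + 2 := ⟨d - 2, by omega⟩
  have : k + 2 - 1 = k + 1 := by omega
  rw [this]
  exact tendsto_ratio (by omega)

end Pool.Agent.Results.MP_d4e795_co.LimitExists
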